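import Pool.Agent.X117.HZ3

/-!
# Runs of consecutive simple zeros of Hardy's function with an exceptional derivative

Unconditionally, for every real `κ` and `ε > 0` there are, for all large `T`, at least
`T (log T) ^ (1 - κ ^ 2 - ε)` runs of three consecutive zeros `t₀ < t₁ < t₂` of Hardy's function `Z` in
`(T, 2 T]` with `t₂ - t₀ ≤ 4000 / log T` which are all simple, satisfy `(log t) ^ (1 + κ - ε) ≤ |Z'(t)| ≤ (log t) ^ (1 + κ + ε)`, have
distance at least `δ / log t` from all other zeros, and are such that zeta has no other zeros, on or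
off the critical line, with ordinate in `[t₀, t₂]`; the signs of `Z'` at the three zeros alternate.
-/

open Filter Topology Complex

namespace Pool.Agent.Results.MP_6bc78b_nt.ExceptionalRuns

/-- the phase `exp (i ϑ(t))`, with `ϑ(t) = arg Γ(1/4 + i t / 2) - (t / 2) log π` -/
noncomputable def phase (t : ℝ) : ℂ :=
  Gamma (1 / 4 + I * t / 2) / ‖Gamma (1 / 4 + I * t / 2)‖ * cexp (-(I * (t / 2) * Real.log Real.pi))

/-- Hardy's function `Z(t) = exp (i ϑ(t)) ζ(1/2 + i t)`; the product is real, see `Z_eq` -/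
noncomputable def Z (t : ℝ) : ℝ := (phase t * riemannZeta (1 / 2 + I * t)).re

theorem Z_eq (t : ℝ) : ((Z t : ℝ) : ℂ) = phase t * riemannZeta (1 / 2 + I * t) :=
  Pool.Agent.X117.HZ.Z_eq t

/-- `t` is a simple zero of `Z` of distance at least `δ / log t` from all other nontrivial zeros of
zeta (on or off the line), and `|Z'(t)|` lies between `(log t) ^ (1 + κ - ε)` and
`(log t) ^ (1 + κ + ε)` -/
def Exceptional (κ ε δ t : ℝ) : Prop :=
  Z t = 0 ∧ deriv Z t ≠ 0 ∧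
    (∀ s : ℂ, riemannZeta s = 0 → 0 < s.re → s.re < 1 → s ≠ 1 / 2 + I * t →
      δ / Real.log t ≤ ‖s - (1 / 2 + I * t)‖) ∧
    Real.log t ^ (1 + κ - ε) ≤ |deriv Z t| ∧ |deriv Z t| ≤ Real.log t ^ (1 + κ + ε)

/-- the points `t` which start a run `t = u 0 < u 1 < u 2` of three consecutive exceptional zeros in
`(T, 2 T]`, of length at most `4000 / log T`: the `1/2 + i u j` are the only nontrivial zeros of
zeta with ordinate in `[u 0, u 2]` -/
def runs (κ ε δ T : ℝ) : Set ℝ :=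
  {t : ℝ | ∃ u : Fin 3 → ℝ, StrictMono u ∧ u 0 = t ∧ T < u 0 ∧ u 2 ≤ 2 * T ∧
    u 2 - u 0 ≤ 4000 / Real.log T ∧ (∀ j, Exceptional κ ε δ (u j)) ∧
    (∀ s : ℂ, riemannZeta s = 0 → 0 < s.re → s.re < 1 → u 0 ≤ s.im → s.im ≤ u 2 →
      ∃ j, s = 1 / 2 + I * u j) ∧
    deriv Z (u 0) * deriv Z (u 1) < 0 ∧ deriv Z (u 1) * deriv Z (u 2) < 0}

lemma Z_zero_iff (t : ℝ) : Z t = 0 ↔ riemannZeta (1 / 2 + I * t) = 0 :=
  Pool.Agent.X117.HZ.Z_zero_iff t

lemma exceptional_of {κ ε δ t : ℝ} (h : Pool.Agent.X117.HZ.Gd κ ε δ t) : Exceptional κ ε δ t := by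
  obtain ⟨h3, h4, h5, h6, h7⟩ := h
  have h10 : |deriv Z t| = ‖deriv riemannZeta (1 / 2 + I * t)‖ :=
    Pool.Agent.X117.HZ.abs_deriv_Z t h3
  refine ⟨(Z_zero_iff t).mpr h3, ?_, h5, by rw [h10]; exact h6, by rw [h10]; exact h7⟩
  intro h0
  rw [h0, abs_zero] at h10
  exact h4 (norm_eq_zero.mp h10.symm)

/-- the sets of runs are finite -/
theorem runs_finite (κ ε δ T : ℝ) (hT : 0 < T) : (runs κ ε δ T).Finite := by
  refine (Pool.Agent.X117.HZ.ords_finite (Pool.Agent.X117.HZ.zW_finite T (2 * T) hT)).subset ?_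
  rintro g ⟨u, h1, rfl, h2, h3, h4, h5, -⟩
  have h7 : u 0 ≤ u 2 := h1.monotone (by decide)
  exact ⟨h2.le, h7.trans h3, 1 / 2 + I * u 0, (Z_zero_iff _).mp (h5 0).1, by simp,
    by simp; norm_num, by simp⟩

/-- the derivatives at consecutive simple zeros have opposite signs -/
lemma opposite {a b : ℝ} (hab : a < b) (ha : Z a = 0) (hb : Z b = 0) (ha' : deriv Z a ≠ 0)
    (hb' : deriv Z b ≠ 0) (h : ∀ s ∈ Set.Ioo a b, Z s ≠ 0) : deriv Z a * deriv Z b < 0 := by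
  rcases ha'.lt_or_gt with h1 | h1
  · rcases hb'.lt_or_gt with h2 | h2
    · obtain ⟨s, hs, hs0, -⟩ := Pool.Agent.X117.HZ.between_neg hab ha hb h1 h2
      exact absurd hs0 (h s hs)
    · exact mul_neg_of_neg_of_pos h1 h2
  · rcases hb'.lt_or_gt with h2 | h2
    · exact mul_neg_of_pos_of_neg h1 h2
    · obtain ⟨s, hs, hs0, -⟩ := Pool.Agent.X117.HZ.between_pos hab ha hb h1 h2
      exact absurd hs0 (h s hs)

/-- **runs of three exceptional zeros** -/
theorem result : ∀ ε : ℝ, 0 < ε → ∃ δ : ℝ, 0 < δ ∧ ∀ κ : ℝ, ∃ T₀ : ℝ, ∀ T : ℝ, T₀ ≤ T →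
    T * Real.log T ^ (1 - κ ^ 2 - ε) ≤ ((runs κ ε δ T).ncard : ℝ) := by
  intro ε hε
  obtain ⟨δ, hδ, h⟩ := Pool.Agent.X117.HZ.run_count ε hε
  refine ⟨δ, hδ, fun κ => ?_⟩
  rw [← Filter.eventually_atTop]
  filter_upwards [h κ, eventually_gt_atTop (0 : ℝ)] with T hT hT0
  refine hT.trans ?_
  have key : {g : ℝ | ∃ u : Fin 3 → ℝ, StrictMono u ∧ u 0 = g ∧ T < u 0 ∧ u 2 ≤ 2 * T ∧
        u 2 - u 0 ≤ 4000 / Real.log T ∧ (∀ j, Pool.Agent.X117.HZ.Gd κ ε δ (u j)) ∧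
        (∀ s : ℂ, riemannZeta s = 0 → 0 < s.re → s.re < 1 → u 0 ≤ s.im → s.im ≤ u 2 →
          ∃ j, s = 1 / 2 + I * u j)}.ncard ≤ (runs κ ε δ T).ncard := by
    refine Set.ncard_le_ncard ?_ (runs_finite κ ε δ T hT0)
    rintro g ⟨u, h1, h2, h3, h4, h5, h6, h7⟩
    have hex : ∀ j, Exceptional κ ε δ (u j) := fun j => exceptional_of (h6 j)
    have h01 : u 0 < u 1 := h1 (by decide)
    have h12 : u 1 < u 2 := h1 (by decide)
    have hzero : ∀ x : ℝ, Z x = 0 → u 0 ≤ x → x ≤ u 2 → x = u 0 ∨ x = u 1 ∨ x = u 2 := by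
      intro x hx a1 a2
      obtain ⟨j, hj⟩ := h7 (1 / 2 + I * x) ((Z_zero_iff x).mp hx) (by simp) (by simp; norm_num)
        (by simpa using a1) (by simpa using a2)
      have h8 := congrArg Complex.im hj
      simp at h8
      fin_cases j
      · exact Or.inl h8
      · exact Or.inr (Or.inl h8)
      · exact Or.inr (Or.inr h8)
    refine ⟨u, h1, h2, h3, h4, h5, hex, h7, ?_, ?_⟩
    · refine opposite h01 (hex 0).1 (hex 1).1 (hex 0).2.1 (hex 1).2.1 fun s hs hs0 => ?_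
      rcases hzero s hs0 hs.1.le (hs.2.le.trans h12.le) with h8 | h8 | h8
      · exact hs.1.ne' h8
      · exact hs.2.ne h8
      · rw [h8] at hs
        exact lt_asymm hs.2 h12
    · refine opposite h12 (hex 1).1 (hex 2).1 (hex 1).2.1 (hex 2).2.1 fun s hs hs0 => ?_
      rcases hzero s hs0 (h01.le.trans hs.1.le) hs.2.le with h8 | h8 | h8
      · rw [h8] at hs
        exact lt_asymm hs.1 h01
      · exact hs.1.ne' h8
      · exact hs.2.ne h8
  exact_mod_cast key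

end Pool.Agent.Results.MP_6bc78b_nt.ExceptionalRuns
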