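import Pool.Agent.H345R2.CT.D
import Pool.Agent.W54.TCF.ZMult

set_option autoImplicit false

/-!
# Zeros of Hardy's function of high multiplicity are super-exponentially rare (on RH)

Assume the Riemann hypothesis.  There are `c > 0` and `m₀` such that for all `T` and all `m ≥ m₀` the
real zeros of `Z` in `(0, T]` of multiplicity at least `m`, counted with multiplicity, number at most
`exp (-c m log m) N(T)`, where `N(T)` counts all nontrivial zeros of zeta with ordinate in `(0, T]`.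
The bound is uniform in `m` and `T`.  Hence the mean value over the real zeros of
`exp (c' m log m)`, `m` the multiplicity, is bounded for some `c' > 0`.

The proof combines the theorem `LG.CU.mult_tail` of the starting library
(`Pool.Agent.H345R2.CT.D`, not handed in) with the dictionary between the zeros of `Z` and of zeta
(`Pool.Agent.W54.TCF.ZMult`).
-/

open Filter Topology Complex

namespace Pool.Agent.Results.MP_6bc78b_nt.MultiplicityTail

/-- the phase `exp (i ϑ(t))`, with `ϑ(t) = arg Γ(1/4 + i t / 2) - (t / 2) log π` -/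
noncomputable def phase (t : ℝ) : ℂ :=
  Gamma (1 / 4 + I * t / 2) / ‖Gamma (1 / 4 + I * t / 2)‖ * cexp (-(I * (t / 2) * Real.log Real.pi))

/-- Hardy's function `Z(t) = exp (i ϑ(t)) ζ(1/2 + i t)` -/
noncomputable def Z (t : ℝ) : ℂ := phase t * riemannZeta (1 / 2 + I * t)

/-- the multiplicity of a real zero `t` of `Z`: the least `m ≥ 1` such that the `m`-th derivative of
`Z` at `t` is not zero -/
noncomputable def mlt (t : ℝ) : ℕ := sInf {m : ℕ | 1 ≤ m ∧ iteratedDeriv m Z t ≠ 0}

/-- the real zeros of `Z` in `(0, T]` -/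
def realZeros (T : ℝ) : Set ℝ := {t : ℝ | 0 < t ∧ t ≤ T ∧ Z t = 0}

/-- the nontrivial zeros of zeta with ordinate in `(0, T]` -/
def zeros (T : ℝ) : Set ℂ :=
  {s : ℂ | riemannZeta s = 0 ∧ 0 < s.re ∧ s.re < 1 ∧ 0 < s.im ∧ s.im ≤ T}

/-- the number of nontrivial zeros of zeta with ordinate in `(0, T]`, counted with multiplicity -/
noncomputable def N (T : ℝ) : ℕ := ∑ᶠ s ∈ zeros T, analyticOrderNatAt riemannZeta s

lemma N_eq (T : ℝ) : N T = SG.NZ T := rfl

lemma Z_zero_iff (t : ℝ) : Z t = 0 ↔ riemannZeta (1 / 2 + I * t) = 0 :=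
  Pool.Agent.W54.TCF.Z_zero_iff t

lemma zmult_pos {t : ℝ} (ht : 0 < t) (h0 : Z t = 0) : 1 ≤ SG.zmult (1 / 2 + I * t) := by
  apply SG.zmult_pos
  · simpa using ht
  · exact (Z_zero_iff t).1 h0

lemma mlt_eq {t : ℝ} (ht : 0 < t) (h0 : Z t = 0) : mlt t = SG.zmult (1 / 2 + I * t) := by
  apply Pool.Agent.W54.TCF.mlt_eq t h0
  intro htop
  have h1 := zmult_pos ht h0
  unfold SG.zmult analyticOrderNatAt at h1
  rw [htop] at h1
  simp at h1

lemma realZeros_finite (T : ℝ) : (realZeros T).Finite := by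
  refine Set.Finite.of_finite_image (f := fun x : ℝ => (1 / 2 + I * x : ℂ))
    ((SG.ZS_finite T).subset ?_) ?_
  · rintro s ⟨t, ⟨h1, h2, h3⟩, rfl⟩
    refine ⟨(Z_zero_iff t).1 h3, ?_, ?_, ?_, ?_⟩
    · simp
    · simp; norm_num
    · simpa using h1
    · simpa using h2
  · intro x _ y _ hxy
    have := congrArg Complex.im hxy
    simpa using this

lemma tail (hRH : RiemannHypothesis) : ∃ c : ℝ, 0 < c ∧ ∃ m0 : ℕ, 1 ≤ m0 ∧ ∀ T : ℝ, ∀ m : ℕ,
    m0 ≤ m → ∑ᶠ t ∈ {t : ℝ | t ∈ realZeros T ∧ m ≤ mlt t}, (mlt t : ℝ) ≤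
      N T * Real.exp (-c * m * Real.log m) := by
  have hRHs : SP.RHs := by
    intro s h1 h2 h0
    apply hRH s h0
    · rintro ⟨k, hk⟩
      have := congrArg Complex.re hk
      simp at this
      have hk0 : (0 : ℝ) ≤ k := Nat.cast_nonneg k
      linarith
    · intro h; rw [h] at h2; simp at h2
  obtain ⟨c, hc, m0, hm0, H⟩ := LG.CU.mult_tail hRHs
  refine ⟨c, hc, m0, hm0, fun T m hm => ?_⟩
  have hf : {t : ℝ | t ∈ realZeros T ∧ m ≤ mlt t}.Finite :=
    (realZeros_finite T).subset fun t ht => ht.1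
  rw [finsum_mem_eq_finite_toFinset_sum _ hf]
  have h := H T m hm hf.toFinset (by
    intro t ht
    rw [Set.Finite.mem_toFinset] at ht
    obtain ⟨⟨h1, h2, h3⟩, h4⟩ := ht
    refine ⟨h1, h2, (Z_zero_iff t).1 h3, ?_⟩
    rw [← mlt_eq h1 h3]
    exact h4)
  have e : ∑ t ∈ hf.toFinset, (mlt t : ℝ) =
      ((∑ t ∈ hf.toFinset, SG.zmult (1 / 2 + I * t) : ℕ) : ℝ) := by
    push_cast
    refine Finset.sum_congr rfl fun t ht => ?_
    rw [Set.Finite.mem_toFinset] at ht
    rw [mlt_eq ht.1.1 ht.1.2.2]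
  rw [e, N_eq]
  exact h

/-- **Theorem.** Assume the Riemann hypothesis.
* The real zeros of `Z` in `(0, T]` are finite in number.
* There are `c > 0` and `m₀` such that for all `T` and all `m ≥ m₀` the real zeros of `Z` in `(0, T]`
  of multiplicity at least `m`, counted with multiplicity, number at most `exp (-c m log m) N(T)`.
* There are `c, C > 0` such that for all `T` the sum over the distinct real zeros `t` of `Z` in
  `(0, T]` of `exp (c m log m)`, `m` the multiplicity of `t`, is at most `C N(T)`. -/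
theorem result (hRH : RiemannHypothesis) :
    (∀ T : ℝ, (realZeros T).Finite) ∧
    (∃ c : ℝ, 0 < c ∧ ∃ m0 : ℕ, 1 ≤ m0 ∧ ∀ T : ℝ, ∀ m : ℕ, m0 ≤ m →
      ∑ᶠ t ∈ {t : ℝ | t ∈ realZeros T ∧ m ≤ mlt t}, (mlt t : ℝ) ≤
        N T * Real.exp (-c * m * Real.log m)) ∧
    (∃ c C : ℝ, 0 < c ∧ 0 < C ∧ ∀ T : ℝ,
      ∑ᶠ t ∈ realZeros T, Real.exp (c * mlt t * Real.log (mlt t)) ≤ C * N T) := by
  classical
  refine ⟨realZeros_finite, tail hRH, ?_⟩
  obtain ⟨c0, hc0, m0, hm0, H⟩ := tail hRH
  obtain ⟨c, hc⟩ : ∃ c, c = c0 / 2 := ⟨_, rfl⟩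
  have hcp : 0 < c := by rw [hc]; positivity
  obtain ⟨M, hM⟩ : ∃ M : ℕ, M = max m0 3 := ⟨_, rfl⟩
  have hM3 : 3 ≤ M := by rw [hM]; exact le_max_right _ _
  have hMm : m0 ≤ M := by rw [hM]; exact le_max_left _ _
  set g : ℕ → ℝ := fun k => Real.exp (c * k * Real.log k) with hg
  have hgpos : ∀ k, 0 < g k := fun k => Real.exp_pos _
  have hgmono : ∀ k l : ℕ, 1 ≤ k → k ≤ l → g k ≤ g l := by
    intro k l hk hkl
    have h1 : (1 : ℝ) ≤ k := by exact_mod_cast hk
    have h2 : (k : ℝ) ≤ l := by exact_mod_cast hkl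
    have h3 : 0 ≤ Real.log k := Real.log_nonneg h1
    have h4 : Real.log k ≤ Real.log l := Real.log_le_log (by linarith) h2
    apply Real.exp_le_exp.2
    have h5 : (k : ℝ) * Real.log k ≤ l * Real.log l :=
      mul_le_mul h2 h4 h3 (by linarith)
    rw [mul_assoc, mul_assoc]
    exact mul_le_mul_of_nonneg_left h5 hcp.le
  set r : ℝ := Real.exp (-c) with hr
  have hr0 : 0 < r := Real.exp_pos _
  have hr1 : r < 1 := by rw [hr, Real.exp_lt_one_iff]; linarith
  have hrr : 0 < (1 - r)⁻¹ := inv_pos.2 (by linarith)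
  have hgM : 0 < g M := hgpos M
  refine ⟨c, g M + (1 - r)⁻¹, hcp, by linarith, fun T => ?_⟩
  have hfin := realZeros_finite T
  rw [finsum_mem_eq_finite_toFinset_sum _ hfin]
  set A := hfin.toFinset with hA
  have hA1 : ∀ t ∈ A, 1 ≤ mlt t := by
    intro t ht
    rw [hA, Set.Finite.mem_toFinset] at ht
    rw [mlt_eq ht.1 ht.2.2]
    exact zmult_pos ht.1 ht.2.2
  -- the number of the zeros is at most `N T`
  have hsum : ∀ m : ℕ, m0 ≤ m → ((A.filter (fun t => m ≤ mlt t)).card : ℝ) ≤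
      N T * Real.exp (-c0 * m * Real.log m) := by
    intro m hm
    have hf : {t : ℝ | t ∈ realZeros T ∧ m ≤ mlt t}.Finite := hfin.subset fun t ht => ht.1
    have h1 := H T m hm
    rw [finsum_mem_eq_finite_toFinset_sum _ hf] at h1
    have e : hf.toFinset = A.filter (fun t => m ≤ mlt t) := by
      ext t
      rw [Set.Finite.mem_toFinset, Finset.mem_filter, hA, Set.Finite.mem_toFinset]
      rfl
    rw [e] at h1
    refine le_trans ?_ h1
    rw [Finset.card_eq_sum_ones]
    push_cast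
    refine Finset.sum_le_sum fun t ht => ?_
    exact_mod_cast hA1 t (Finset.mem_filter.1 ht).1
  have hcard : (A.card : ℝ) ≤ N T := by
    rw [N_eq, SG.NZ_eq]
    have hinj : Set.InjOn (fun x : ℝ => (1 / 2 + I * x : ℂ)) (A : Set ℝ) := by
      intro x _ y _ hxy
      have := congrArg Complex.im hxy
      simpa using this
    have h1 : A.card = (A.image (fun x : ℝ => (1 / 2 + I * x : ℂ))).card :=
      (Finset.card_image_of_injOn hinj).symm
    have h2 : A.image (fun x : ℝ => (1 / 2 + I * x : ℂ)) ⊆ (SG.ZS_finite T).toFinset := by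
      intro s hs
      rw [Finset.mem_image] at hs
      obtain ⟨t, ht, rfl⟩ := hs
      rw [hA, Set.Finite.mem_toFinset] at ht
      rw [Set.Finite.mem_toFinset]
      refine ⟨(Z_zero_iff t).1 ht.2.2, ?_, ?_, ?_, ?_⟩
      · simp
      · simp; norm_num
      · simpa using ht.1
      · simpa using ht.2.1
    have h3 : (SG.ZS_finite T).toFinset.card ≤ ∑ s ∈ (SG.ZS_finite T).toFinset, SG.zmult s := by
      rw [Finset.card_eq_sum_ones]
      refine Finset.sum_le_sum fun s hs => ?_
      rw [Set.Finite.mem_toFinset] at hs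
      exact SG.zmult_pos hs.2.2.2.1 hs.1
    have h4 := (Finset.card_le_card h2).trans h3
    rw [← h1] at h4
    exact_mod_cast h4
  have hNT : (0 : ℝ) ≤ N T := Nat.cast_nonneg _
  -- pointwise bound
  obtain ⟨B, hB⟩ : ∃ B : ℕ, ∀ t ∈ A, mlt t < B := by
    refine ⟨A.sup mlt + 1, fun t ht => ?_⟩
    have := Finset.le_sup (f := mlt) ht
    omega
  have hpt : ∀ t ∈ A, g (mlt t) ≤ g M +
      ∑ k ∈ (Finset.Ico M B), (if k ≤ mlt t then g k else 0) := by
    intro t ht
    have hn : ∀ k ∈ Finset.Ico M B, 0 ≤ (if k ≤ mlt t then g k else 0) := by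
      intro k _
      split_ifs
      · exact (hgpos k).le
      · exact le_rfl
    rcases lt_or_ge (mlt t) M with h | h
    · have h1 := hgmono (mlt t) M (hA1 t ht) h.le
      have h2 := Finset.sum_nonneg hn
      linarith
    · have h1 : (if mlt t ≤ mlt t then g (mlt t) else 0) ≤
          ∑ k ∈ (Finset.Ico M B), (if k ≤ mlt t then g k else 0) :=
        Finset.single_le_sum (f := fun k => if k ≤ mlt t then g k else 0) hn
          (Finset.mem_Ico.2 ⟨h, hB t ht⟩)
      rw [if_pos le_rfl] at h1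
      have h2 := hgpos M
      linarith
  have hswap : ∑ t ∈ A, ∑ k ∈ (Finset.Ico M B), (if k ≤ mlt t then g k else 0) ≤
      N T * (1 - r)⁻¹ := by
    rw [Finset.sum_comm]
    have h1 : ∀ k ∈ Finset.Ico M B, ∑ t ∈ A, (if k ≤ mlt t then g k else 0) ≤ N T * r ^ k := by
      intro k hk
      rw [Finset.mem_Ico] at hk
      rw [← Finset.sum_filter, Finset.sum_const, nsmul_eq_mul]
      have hk3 : (3 : ℝ) ≤ k := by exact_mod_cast hM3.trans hk.1
      have hlog : 1 ≤ Real.log k := by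
        rw [Real.le_log_iff_exp_le (by linarith)]
        have := Real.exp_one_lt_d9
        linarith
      have h2 := mul_le_mul_of_nonneg_right (hsum k (hMm.trans hk.1)) (hgpos k).le
      refine h2.trans ?_
      rw [mul_assoc]
      refine mul_le_mul_of_nonneg_left ?_ hNT
      rw [hg, hr, ← Real.exp_nat_mul]
      simp only
      rw [← Real.exp_add]
      apply Real.exp_le_exp.2
      have h3 : (k : ℝ) * 1 ≤ k * Real.log k := mul_le_mul_of_nonneg_left hlog (by linarith)
      have h4 : c * ((k : ℝ) * 1) ≤ c * (k * Real.log k) := mul_le_mul_of_nonneg_left h3 hcp.le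
      have h5 : c0 = 2 * c := by rw [hc]; ring
      rw [h5]
      linarith
    refine (Finset.sum_le_sum h1).trans ?_
    rw [← Finset.mul_sum]
    refine mul_le_mul_of_nonneg_left ?_ hNT
    have h2 := (summable_geometric_of_lt_one hr0.le hr1).sum_le_tsum (Finset.Ico M B)
      (fun k _ => pow_nonneg hr0.le k)
    rw [tsum_geometric_of_lt_one hr0.le hr1] at h2
    exact h2
  have h1 : ∑ t ∈ A, g (mlt t) ≤ A.card * g M +
      ∑ t ∈ A, ∑ k ∈ (Finset.Ico M B), (if k ≤ mlt t then g k else 0) := by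
    refine (Finset.sum_le_sum hpt).trans ?_
    rw [Finset.sum_add_distrib, Finset.sum_const, nsmul_eq_mul]
  have h2 : (A.card : ℝ) * g M ≤ N T * g M := mul_le_mul_of_nonneg_right hcard (hgpos M).le
  have h3 : ∑ t ∈ A, Real.exp (c * mlt t * Real.log (mlt t)) = ∑ t ∈ A, g (mlt t) := rfl
  rw [h3]
  nlinarith [h1, h2, hswap]

end Pool.Agent.Results.MP_6bc78b_nt.MultiplicityTail
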