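import Pool.Agent.X117.HZ3
import Pool.Agent.Results.MP_6bc78b_nt.LargeDeviationExponents

/-!
# Large deviations of the derivative of Hardy's function at its zeros, with signs

Unconditionally, for both signs `σ`: for `0 ≤ κ ≤ 2` the number of zeros `t ∈ (T, 2 T]` of Hardy's
function `Z` with `σ Z'(t) ≥ (log t) ^ (1 + κ)` is `T (log T) ^ (1 - κ ^ 2 + o(1))`, and for every real
`κ` there are at least `T (log T) ^ (1 - κ ^ 2 - ε)` zeros `t ∈ (T, 2 T]` of `Z` with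
`(log t) ^ (1 + κ - ε) ≤ σ Z'(t) ≤ (log t) ^ (1 + κ + ε)` that have distance at least `δ / log t` from
all other nontrivial zeros of zeta.
-/

open Filter Topology Complex

namespace Pool.Agent.Results.MP_6bc78b_nt.SignedLargeValues

/-- the phase `exp (i ϑ(t))`, with `ϑ(t) = arg Γ(1/4 + i t / 2) - (t / 2) log π` -/
noncomputable def phase (t : ℝ) : ℂ :=
  Gamma (1 / 4 + I * t / 2) / ‖Gamma (1 / 4 + I * t / 2)‖ * cexp (-(I * (t / 2) * Real.log Real.pi))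

/-- Hardy's function `Z(t) = exp (i ϑ(t)) ζ(1/2 + i t)`; the product is real, see `Z_eq` -/
noncomputable def Z (t : ℝ) : ℝ := (phase t * riemannZeta (1 / 2 + I * t)).re

theorem Z_eq (t : ℝ) : ((Z t : ℝ) : ℂ) = phase t * riemannZeta (1 / 2 + I * t) :=
  Pool.Agent.X117.HZ.Z_eq t

/-- the zeros `t ∈ (T, 2 T]` of `Z` with `σ Z'(t) ≥ (log t) ^ (1 + κ)` -/
def above (σ κ T : ℝ) : Set ℝ :=
  {t : ℝ | T < t ∧ t ≤ 2 * T ∧ Z t = 0 ∧ Real.log t ^ (1 + κ) ≤ σ * deriv Z t}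

/-- the zeros `t ∈ (T, 2 T]` of `Z` with `(log t) ^ (1 + κ - ε) ≤ σ Z'(t) ≤ (log t) ^ (1 + κ + ε)` that
have distance at least `δ / log t` from all other nontrivial zeros of zeta (on or off the line) -/
def near (σ κ ε δ T : ℝ) : Set ℝ :=
  {t : ℝ | T < t ∧ t ≤ 2 * T ∧ Z t = 0 ∧
    (∀ s : ℂ, riemannZeta s = 0 → 0 < s.re → s.re < 1 → s ≠ 1 / 2 + I * t →
      δ / Real.log t ≤ ‖s - (1 / 2 + I * t)‖) ∧
    Real.log t ^ (1 + κ - ε) ≤ σ * deriv Z t ∧ σ * deriv Z t ≤ Real.log t ^ (1 + κ + ε)}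

lemma Z_zero_iff (t : ℝ) : Z t = 0 ↔ riemannZeta (1 / 2 + I * t) = 0 :=
  Pool.Agent.X117.HZ.Z_zero_iff t

lemma abs_deriv (t : ℝ) (h : Z t = 0) : |deriv Z t| = ‖deriv riemannZeta (1 / 2 + I * t)‖ :=
  Pool.Agent.X117.HZ.abs_deriv_Z t ((Z_zero_iff t).mp h)

lemma sign_mul {σ x : ℝ} (hσ : σ = 1 ∨ σ = -1) (h : 0 < σ * x) : σ * x = |x| := by
  rcases hσ with rfl | rfl
  · rw [one_mul] at h ⊢
    exact (abs_of_pos h).symm
  · have : x < 0 := by linarith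
    rw [abs_of_neg this]
    ring

lemma mul_le_abs {σ x : ℝ} (hσ : σ = 1 ∨ σ = -1) : σ * x ≤ |x| := by
  rcases hσ with rfl | rfl
  · rw [one_mul]
    exact le_abs_self x
  · rw [neg_one_mul]
    exact neg_le_abs x

theorem realZeros_finite (T : ℝ) (hT : 0 < T) : {t : ℝ | T < t ∧ t ≤ 2 * T ∧ Z t = 0}.Finite := by
  refine (Pool.Agent.X117.HZ.ords_finite (Pool.Agent.X117.HZ.zW_finite T (2 * T) hT)).subset ?_
  rintro g ⟨h5, h6, h7⟩
  exact ⟨h5.le, h6, 1 / 2 + I * g, (Z_zero_iff g).mp h7, by simp, by simp; norm_num, by simp⟩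

theorem above_finite (σ κ T : ℝ) (hT : 0 < T) : (above σ κ T).Finite :=
  (realZeros_finite T hT).subset fun _ h => ⟨h.1, h.2.1, h.2.2.1⟩

theorem near_finite (σ κ ε δ T : ℝ) (hT : 0 < T) : (near σ κ ε δ T).Finite :=
  (realZeros_finite T hT).subset fun _ h => ⟨h.1, h.2.1, h.2.2.1⟩

/-- the lower bound -/
theorem lower : ∀ ε : ℝ, 0 < ε → ∃ δ : ℝ, 0 < δ ∧ ∀ κ σ : ℝ, (σ = 1 ∨ σ = -1) →
    ∃ T₀ : ℝ, ∀ T : ℝ, T₀ ≤ T →
      T * Real.log T ^ (1 - κ ^ 2 - ε) ≤ ((near σ κ ε δ T).ncard : ℝ) := by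
  intro ε hε
  obtain ⟨δ, hδ, h⟩ := Pool.Agent.X117.HZ.signed_count ε hε
  refine ⟨δ, hδ, fun κ σ hσ => ?_⟩
  rw [← Filter.eventually_atTop]
  filter_upwards [h κ σ hσ, eventually_gt_atTop (0 : ℝ)] with T hT hT0
  refine hT.trans ?_
  have : {g : ℝ | T < g ∧ g ≤ 2 * T ∧ Pool.Agent.X117.HZ.Gd κ ε δ g ∧
      0 < σ * deriv Pool.Agent.X117.HZ.Z g}.ncard ≤ (near σ κ ε δ T).ncard := by
    refine Set.ncard_le_ncard ?_ (near_finite σ κ ε δ T hT0)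
    rintro g ⟨h1, h2, ⟨h3, h4, h5, h6, h7⟩, h8⟩
    have hz : Z g = 0 := (Z_zero_iff g).mpr h3
    have h9 : 0 < σ * deriv Z g := h8
    have h10 := abs_deriv g hz
    refine ⟨h1, h2, hz, h5, ?_, ?_⟩
    · rw [sign_mul hσ h9, h10]
      exact h6
    · rw [sign_mul hσ h9, h10]
      exact h7
  exact_mod_cast this

/-- the number of zeros above a threshold, from below -/
lemma above_ge {κ ε σ : ℝ} (hκ : 0 ≤ κ) (hε : 0 < ε) (hσ : σ = 1 ∨ σ = -1) :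
    ∀ᶠ T : ℝ in atTop, T * Real.log T ^ (1 - κ ^ 2 - ε) ≤ ((above σ κ T).ncard : ℝ) := by
  set η : ℝ := min 1 (ε / (4 * (κ + 1))) with hη
  have hη0 : 0 < η := by positivity
  have hη1 : η ≤ 1 := min_le_left _ _
  have hη2 : η * (4 * (κ + 1)) ≤ ε := by
    have : η ≤ ε / (4 * (κ + 1)) := min_le_right _ _
    rwa [le_div_iff₀ (by positivity)] at this
  obtain ⟨δ, -, h⟩ := lower (min η (ε / 4)) (by positivity)
  have h1 := h (κ + η) σ hσ
  rw [← Filter.eventually_atTop] at h1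
  filter_upwards [h1, Real.tendsto_log_atTop.eventually_ge_atTop 1, eventually_ge_atTop 1] with T hT hL hT1
  have hT0 : 0 < T := by linarith
  refine le_trans ?_ (hT.trans ?_)
  · refine mul_le_mul_of_nonneg_left ?_ hT0.le
    refine Real.rpow_le_rpow_of_exponent_le hL ?_
    have h2 : min η (ε / 4) ≤ ε / 4 := min_le_right _ _
    nlinarith
  · norm_cast
    refine Set.ncard_le_ncard ?_ (above_finite σ κ T hT0)
    rintro t ⟨a1, a2, a3, a4, a5, a6⟩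
    refine ⟨a1, a2, a3, le_trans ?_ a5⟩
    have hlt : 1 ≤ Real.log t := hL.trans (Real.log_le_log hT0 a1.le)
    refine Real.rpow_le_rpow_of_exponent_le hlt ?_
    have h2 : min η (ε / 4) ≤ η := min_le_left _ _
    linarith

open Classical in
lemma above_le {κ ε σ : ℝ} (h0 : 0 ≤ κ) (h2 : κ ≤ 2) (hε : 0 < ε) (hσ : σ = 1 ∨ σ = -1) :
    ∀ᶠ T : ℝ in atTop, ((above σ κ T).ncard : ℝ) ≤ T * Real.log T ^ (1 - κ ^ 2 + ε) := by
  filter_upwards [Pool.Agent.Y745.UP.upb_count Pool.Agent.Y745.UP.a_UPB h0 h2 hε,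
    eventually_ge_atTop 1] with T hT hT1
  refine le_trans ?_ ((LargeDeviationExponents.above_le hT1).trans hT)
  norm_cast
  refine Set.ncard_le_ncard ?_ (LargeDeviationExponents.zerosAbove_finite κ T (by linarith))
  rintro t ⟨a1, a2, a3, a4⟩
  have hz : LargeDeviationExponents.Z t = 0 :=
    (LargeDeviationExponents.Z_zero_iff t).mpr ((Z_zero_iff t).mp a3)
  refine ⟨⟨a1, a2, hz⟩, ?_⟩
  rw [LargeDeviationExponents.norm_deriv_Z hz, ← abs_deriv t a3]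
  exact a4.trans (mul_le_abs hσ)

/-- **the exact exponents, for each sign** -/
theorem result :
    (∀ κ σ : ℝ, 0 ≤ κ → κ ≤ 2 → (σ = 1 ∨ σ = -1) → Tendsto (fun T : ℝ =>
      Real.log (((above σ κ T).ncard : ℝ) / T) / Real.log (Real.log T)) atTop (𝓝 (1 - κ ^ 2))) ∧
    (∀ ε : ℝ, 0 < ε → ∃ δ : ℝ, 0 < δ ∧ ∀ κ σ : ℝ, (σ = 1 ∨ σ = -1) →
      ∃ T₀ : ℝ, ∀ T : ℝ, T₀ ≤ T →
        T * Real.log T ^ (1 - κ ^ 2 - ε) ≤ ((near σ κ ε δ T).ncard : ℝ)) := by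
  refine ⟨fun κ σ h0 h2 hσ => ?_, lower⟩
  exact LargeDeviationExponents.tendsto_of_bounds (fun ε hε => above_ge h0 hε hσ)
    fun ε hε => above_le h0 h2 hε hσ

end Pool.Agent.Results.MP_6bc78b_nt.SignedLargeValues
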