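import Pool.Agent.TH342.CV.Joint
import Pool.Agent.H370R2.DirGood
import Pool.Agent.H370R2.Expl1

/-!
# Simple zeros of Hardy's function near several shifted points at the same time

No hypothesis is assumed.  Let `p = 3/2 - cot(1/√2)/√2 = 0.6725…` (the Montgomery-Taylor proportion).  For
`m` shifts `a_1, …, a_m` consider the short windows `(t + a_i, t + a_i + G · 2π / log T)`, whose length is `G`
mean spacings of the zeros, `G` a constant.

For every `k < p m` and `ε > 0` there are `G` and `d > 0` such that in every interval `(T, T + H)`,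
`T ^ (1 - d) ≤ H ≤ T`, `T` large, and for all shifts `0 ≤ a_i ≤ T ^ (1 + d)`, the set of the `t` for which at
least `k + 1` of the `m` windows contain a simple zero of `Z` has measure at least `((p m - k)/(m - k) - ε) H`.
So for `67.2 %` of all `t` there is a simple zero of `Z` in `(t, t + G · 2π / log T)`, for `34.4 %` of all `t`
there are simple zeros just behind both of `t + a_1` and `t + a_2`, for `1.7 %` just behind all three of
`t + a_1`, `t + a_2`, `t + a_3`, whatever the shifts are; and for every `m` and any `m` shifts a positive proportion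
of the `t` has simple zeros of `Z` in at least `p m` of the `m` windows.  The same is proved for the simple
zeros on the critical line of `m` arbitrary primitive Dirichlet L-functions, with the same `G` and `d`
(modulus `1`: the zeta function, so that some of the windows may be for `Z`).

The proof uses the covering theorem of the starting library (`Pool.Agent.TH342.CV.joint`, helper342): cut the
line into cells of `g` mean spacings; by Bessel's inequality for sampled exponentials the trace inequality for the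
zeros gives that the counts of the simple critical zeros in the cells, truncated at `(1 + o(1)) g`, have average at
least `(p - o(1)) g`, at every shift.
-/

open Filter Topology Complex MeasureTheory Set

namespace Pool.Agent.Results.MP_6bc78b_nt.SimultaneousShifts

/-- the phase `exp (i ϑ(t))`, with `ϑ(t) = arg Γ(1/4 + i t / 2) - (t / 2) log π` -/
noncomputable def phase (t : ℝ) : ℂ :=
  Gamma (1 / 4 + I * t / 2) / ‖Gamma (1 / 4 + I * t / 2)‖ * cexp (-(I * (t / 2) * Real.log Real.pi))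

/-- Hardy's function `Z(t) = exp (i ϑ(t)) ζ(1/2 + i t)` -/
noncomputable def Z (t : ℝ) : ℂ := phase t * riemannZeta (1 / 2 + I * t)

/-- the constant `p = 3/2 - cot(1/√2)/√2 = 0.6725…` -/
noncomputable def p : ℝ := 3 / 2 - Real.cot (1 / Real.sqrt 2) / Real.sqrt 2

/-- `Z` has a simple zero in the window `(u, u + w)` -/
def HitZ (u w : ℝ) : Prop := ∃ x : ℝ, u < x ∧ x < u + w ∧ Z x = 0 ∧ deriv Z x ≠ 0

/-- `F` has a simple zero `1/2 + i x` with `x` in the window `(u, u + w)` -/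
def Hit (F : ℂ → ℂ) (u w : ℝ) : Prop :=
  ∃ x : ℝ, u < x ∧ x < u + w ∧ F (1 / 2 + I * x) = 0 ∧ deriv F (1 / 2 + I * x) ≠ 0

lemma gamma_ne (t : ℝ) : Gamma (1 / 4 + I * t / 2) ≠ 0 := by
  apply Gamma_ne_zero_of_re_pos
  simp

lemma gamma_cont : Continuous fun t : ℝ => Gamma (1 / 4 + I * t / 2) := by
  rw [continuous_iff_continuousAt]
  intro t
  have h1 : ContinuousAt Gamma (1 / 4 + I * t / 2) := by
    refine (differentiableAt_Gamma _ fun m hm => ?_).continuousAt
    have := congrArg Complex.re hm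
    simp at this
    have hm0 : (0 : ℝ) ≤ m := Nat.cast_nonneg m
    linarith
  exact ContinuousAt.comp (f := fun t : ℝ => (1 / 4 + I * t / 2 : ℂ)) h1 (by fun_prop)

lemma phase_cont : Continuous phase := by
  unfold phase
  refine Continuous.mul (gamma_cont.div ?_ ?_) (by fun_prop)
  · exact Complex.continuous_ofReal.comp gamma_cont.norm
  · intro t
    rw [Complex.ofReal_ne_zero]
    exact norm_ne_zero_iff.mpr (gamma_ne t)

lemma phase_ne (t : ℝ) : phase t ≠ 0 := by
  unfold phase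
  refine mul_ne_zero (div_ne_zero (gamma_ne t) ?_) (Complex.exp_ne_zero _)
  rw [Complex.ofReal_ne_zero]
  exact norm_ne_zero_iff.mpr (gamma_ne t)

lemma Z_zero_iff (t : ℝ) : Z t = 0 ↔ riemannZeta (1 / 2 + I * t) = 0 := by
  unfold Z
  rw [mul_eq_zero]
  exact ⟨fun h => h.resolve_left (phase_ne t), Or.inr⟩

lemma zeta_diff (t : ℝ) : DifferentiableAt ℂ riemannZeta (1 / 2 + I * t) := by
  refine differentiableAt_riemannZeta fun h => ?_
  have := congrArg Complex.re h
  norm_num at this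

/-- the derivative of `Z` at a zero -/
lemma Z_hasDerivAt (t : ℝ) (h : riemannZeta (1 / 2 + I * t) = 0) :
    HasDerivAt Z (phase t * (deriv riemannZeta (1 / 2 + I * t) * I)) t := by
  have hg : HasDerivAt (fun u : ℝ => riemannZeta (1 / 2 + I * u))
      (deriv riemannZeta (1 / 2 + I * t) * I) t := by
    have h1 : HasDerivAt (fun u : ℝ => (1 / 2 + I * u : ℂ)) I t := by
      have h2 : HasDerivAt (fun u : ℝ => (u : ℂ)) 1 t := Complex.ofRealCLM.hasDerivAt
      simpa using (h2.const_mul I).const_add (1 / 2 : ℂ)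
    exact HasDerivAt.comp (h₂ := riemannZeta) t (zeta_diff t).hasDerivAt h1
  rw [hasDerivAt_iff_tendsto_slope] at hg ⊢
  have h3 : Tendsto phase (𝓝[≠] t) (𝓝 (phase t)) :=
    phase_cont.continuousAt.tendsto.mono_left nhdsWithin_le_nhds
  refine (h3.mul hg).congr fun u => ?_
  have hZ : Z t = 0 := (Z_zero_iff t).mpr h
  rw [slope_def_module, slope_def_module, hZ, h, sub_zero, sub_zero]
  unfold Z
  simp only [Complex.real_smul]
  ring

lemma hitZ_iff (u w : ℝ) : HitZ u w ↔ Hit riemannZeta u w := by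
  unfold HitZ Hit
  refine exists_congr fun x => and_congr_right fun _ => and_congr_right fun _ => ?_
  constructor
  · rintro ⟨h1, h2⟩
    have h3 := (Z_zero_iff x).mp h1
    refine ⟨h3, fun h4 => h2 ?_⟩
    rw [(Z_hasDerivAt x h3).deriv, h4, zero_mul, mul_zero]
  · rintro ⟨h1, h2⟩
    refine ⟨(Z_zero_iff x).mpr h1, ?_⟩
    rw [(Z_hasDerivAt x h1).deriv]
    exact mul_ne_zero (phase_ne _) (mul_ne_zero h2 I_ne_zero)

lemma p_eq : p = 2 - H370.cMTinv := by
  unfold p H370.cMTinv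
  ring

lemma p_num : 0.672497 ≤ p := by
  rw [p_eq]
  have := H370.Expl.cMTinv_num
  norm_num at this ⊢
  linarith

/-- a zero of order one has a nonzero derivative -/
lemma deriv_ne {F : ℂ → ℂ} {s : ℂ} (hF : AnalyticAt ℂ F s)
    (h1 : analyticOrderNatAt F s = 1) : deriv F s ≠ 0 := by
  intro hd
  have h2 : analyticOrderAt F s = 1 := by
    have h3 : analyticOrderAt F s ≠ ⊤ := by
      intro h
      rw [analyticOrderNatAt, h] at h1
      simp at h1
    have h4 := Nat.cast_analyticOrderNatAt h3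
    rw [h1] at h4
    exact h4.symm
  obtain ⟨g, hg, hg0, hgF⟩ := (hF.analyticOrderAt_eq_natCast (n := 1)).mp (by exact_mod_cast h2)
  have h5 : deriv F s = g s := by
    have e : F =ᶠ[𝓝 s] fun z => (z - s) * g z := by
      filter_upwards [hgF] with z hz
      rw [hz]
      simp
    rw [e.deriv_eq]
    have h6 : HasDerivAt (fun z => (z - s) * g z) (1 * g s + (s - s) * deriv g s) s :=
      ((hasDerivAt_id s).sub_const s).mul hg.differentiableAt.hasDerivAt
    rw [h6.deriv]
    ring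
  exact hg0 (by rw [← h5, hd])

/-- the windows of the library are windows with a simple zero -/
lemma hit_of {F : ℂ → ℂ} (hF : H370.GoodL F) {u w : ℝ} (hu : 0 < u)
    (h : ∃ x : ℝ, u < x ∧ x < u + w ∧ Pool.Agent.TH342.CV.SimpleAt F x) : Hit F u w := by
  obtain ⟨x, h1, h2, h3, h4⟩ := h
  have e : (1 / 2 + (x : ℂ) * I) = 1 / 2 + I * x := by ring
  rw [e] at h3 h4
  refine ⟨x, h1, h2, h3, deriv_ne (hF.an _ ?_) h4⟩
  simp
  linarith

/-- the theorem for good functions -/
theorem main (m k : ℕ) (hk : (k : ℝ) < p * m) (ε : ℝ) (hε : 0 < ε) :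
    ∃ G d : ℝ, 0 < G ∧ 0 < d ∧ d < 1 ∧ ∀ F : Fin m → ℂ → ℂ, (∀ i, H370.GoodL (F i)) →
      ∃ T₀ : ℝ, ∀ T : ℝ, T₀ ≤ T → ∀ H : ℝ, T ^ (1 - d) ≤ H → H ≤ T →
        ∀ a : Fin m → ℝ, (∀ i, 0 ≤ a i ∧ a i ≤ T ^ (1 + d)) →
          ENNReal.ofReal (((p * m - k) / (m - k) - ε) * H) ≤
            volume {t : ℝ | T < t ∧ t < T + H ∧
              k + 1 ≤ {i : Fin m | Hit (F i) (t + a i) (G * (2 * Real.pi / Real.log T))}.ncard} := by
  rw [p_eq] at hk ⊢
  obtain ⟨G, hG, d, hd, hd1, h⟩ := Pool.Agent.TH342.CV.joint hk hε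
  refine ⟨G, d, hG, hd, hd1, fun F hF => ?_⟩
  obtain ⟨T₀, hT₀, hT⟩ := h F hF
  refine ⟨T₀, fun T hTT H hH hHT a ha => (hT T hTT H hH hHT a ha).trans (measure_mono ?_)⟩
  rintro t ⟨⟨h1, h2⟩, h3⟩
  refine ⟨h1, h2, h3.trans (Set.ncard_le_ncard ?_ (Set.toFinite _))⟩
  rintro i ⟨-, -, x, h4, h5, -, h6⟩
  have hT10 : 10 ≤ T := hT₀.trans hTT
  exact hit_of (hF i) (by linarith [(ha i).1]) ⟨x, h4, h5, h6⟩

/-- **Simple zeros of Hardy's function near several shifted points at the same time.** -/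
theorem result :
    -- Hardy's function
    (∀ (m k : ℕ) (ε : ℝ), (k : ℝ) < p * m → 0 < ε → ∃ G d : ℝ, 0 < G ∧ 0 < d ∧ d < 1 ∧
      ∃ T₀ : ℝ, ∀ T : ℝ, T₀ ≤ T → ∀ H : ℝ, T ^ (1 - d) ≤ H → H ≤ T →
        ∀ a : Fin m → ℝ, (∀ i, 0 ≤ a i ∧ a i ≤ T ^ (1 + d)) →
          ENNReal.ofReal (((p * m - k) / (m - k) - ε) * H) ≤
            volume {t : ℝ | T < t ∧ t < T + H ∧
              k + 1 ≤ {i : Fin m | HitZ (t + a i) (G * (2 * Real.pi / Real.log T))}.ncard}) ∧
    -- primitive Dirichlet L-functions (modulus 1: the zeta function)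
    (∀ (m k : ℕ) (ε : ℝ), (k : ℝ) < p * m → 0 < ε → ∃ G d : ℝ, 0 < G ∧ 0 < d ∧ d < 1 ∧
      ∀ (q : Fin m → ℕ) [∀ i, NeZero (q i)] (χ : ∀ i, DirichletCharacter ℂ (q i)),
      (∀ i, (χ i).IsPrimitive) →
      ∃ T₀ : ℝ, ∀ T : ℝ, T₀ ≤ T → ∀ H : ℝ, T ^ (1 - d) ≤ H → H ≤ T →
        ∀ a : Fin m → ℝ, (∀ i, 0 ≤ a i ∧ a i ≤ T ^ (1 + d)) →
          ENNReal.ofReal (((p * m - k) / (m - k) - ε) * H) ≤
            volume {t : ℝ | T < t ∧ t < T + H ∧
              k + 1 ≤ {i : Fin m | Hit (DirichletCharacter.LFunction (χ i)) (t + a i)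
                (G * (2 * Real.pi / Real.log T))}.ncard}) ∧
    -- three shifts
    (∃ G d : ℝ, 0 < G ∧ 0 < d ∧ d < 1 ∧
      ∃ T₀ : ℝ, ∀ T : ℝ, T₀ ≤ T → ∀ H : ℝ, T ^ (1 - d) ≤ H → H ≤ T →
        ∀ a : Fin 3 → ℝ, (∀ i, 0 ≤ a i ∧ a i ≤ T ^ (1 + d)) →
          ENNReal.ofReal (0.0174 * H) ≤
            volume {t : ℝ | T < t ∧ t < T + H ∧
              ∀ i : Fin 3, HitZ (t + a i) (G * (2 * Real.pi / Real.log T))}) ∧
    -- the constant
    0.672497 ≤ p := by
  have h1 : ∀ (m k : ℕ) (ε : ℝ), (k : ℝ) < p * m → 0 < ε → ∃ G d : ℝ, 0 < G ∧ 0 < d ∧ d < 1 ∧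
      ∃ T₀ : ℝ, ∀ T : ℝ, T₀ ≤ T → ∀ H : ℝ, T ^ (1 - d) ≤ H → H ≤ T →
        ∀ a : Fin m → ℝ, (∀ i, 0 ≤ a i ∧ a i ≤ T ^ (1 + d)) →
          ENNReal.ofReal (((p * m - k) / (m - k) - ε) * H) ≤
            volume {t : ℝ | T < t ∧ t < T + H ∧
              k + 1 ≤ {i : Fin m | HitZ (t + a i) (G * (2 * Real.pi / Real.log T))}.ncard} := by
    intro m k ε hk hε
    obtain ⟨G, d, hG, hd, hd1, h⟩ := main m k hk ε hε
    obtain ⟨T₀, hT⟩ := h (fun _ => riemannZeta) fun _ => H370.good_zeta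
    refine ⟨G, d, hG, hd, hd1, T₀, fun T hTT H hH hHT a ha => ?_⟩
    simpa only [hitZ_iff] using hT T hTT H hH hHT a ha
  refine ⟨h1, fun m k ε hk hε => ?_, ?_, p_num⟩
  · obtain ⟨G, d, hG, hd, hd1, h⟩ := main m k hk ε hε
    exact ⟨G, d, hG, hd, hd1, fun q _ χ hχ => h _ fun i => H370.good_dirichlet (χ i) (hχ i)⟩
  · obtain ⟨G, d, hG, hd, hd1, T₀, hT⟩ := h1 3 2 0.00005 (by have := p_num; push_cast; linarith)
      (by norm_num)
    refine ⟨G, d, hG, hd, hd1, max T₀ 1, fun T hTT H hH hHT a ha => ?_⟩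
    have hT1 : 1 ≤ T := (le_max_right _ _).trans hTT
    have hH0 : 0 ≤ H := (Real.rpow_nonneg (by linarith) _).trans hH
    refine le_trans (ENNReal.ofReal_le_ofReal ?_)
      ((hT T ((le_max_left _ _).trans hTT) H hH hHT a ha).trans (measure_mono ?_))
    · apply mul_le_mul_of_nonneg_right _ hH0
      have := p_num
      push_cast
      norm_num
      linarith
    · rintro t ⟨h2, h3, h4⟩
      refine ⟨h2, h3, ?_⟩
      have h5 : {i : Fin 3 | HitZ (t + a i) (G * (2 * Real.pi / Real.log T))} = Set.univ := by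
        apply Set.eq_of_subset_of_ncard_le (Set.subset_univ _) _ (Set.toFinite _)
        rw [Set.ncard_univ, Nat.card_eq_fintype_card, Fintype.card_fin]
        exact h4
      intro i
      have h6 : i ∈ {i : Fin 3 | HitZ (t + a i) (G * (2 * Real.pi / Real.log T))} := by
        rw [h5]; exact Set.mem_univ i
      exact h6

end Pool.Agent.Results.MP_6bc78b_nt.SimultaneousShifts
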